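import Mathlib

namespace Pool.Agent.Results.MP_dabbe0_pr.NotUniversal

open Finset

/-- The number 0 or 1 given by a bit. -/
noncomputable def bitVal (x : Bool) : ℝ := if x then 1 else 0

/-- The exponent `b·v + c·h + vᵀ W h` of the restricted Boltzmann machine. -/
noncomputable def expo {n m : ℕ} (W : Fin n → Fin m → ℝ) (b : Fin n → ℝ) (c : Fin m → ℝ)
    (v : Fin n → Bool) (h : Fin m → Bool) : ℝ :=
  ∑ i, b i * bitVal (v i) + ∑ j, c j * bitVal (h j) + ∑ i, ∑ j, bitVal (v i) * W i j * bitVal (h j)

/-- The unnormalised mass of the visible vector `v`: the sum over all hidden vectors. -/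
noncomputable def mass {n m : ℕ} (W : Fin n → Fin m → ℝ) (b : Fin n → ℝ) (c : Fin m → ℝ)
    (v : Fin n → Bool) : ℝ :=
  ∑ h : Fin m → Bool, Real.exp (expo W b c v h)

/-- The probability distribution on visible vectors defined by the machine. -/
noncomputable def rbmDist {n m : ℕ} (W : Fin n → Fin m → ℝ) (b : Fin n → ℝ) (c : Fin m → ℝ) :
    (Fin n → Bool) → ℝ :=
  fun v => mass W b c v / ∑ u : Fin n → Bool, mass W b c u

/-- The model `RBM(n,m)`: all distributions given by some parameters. -/
def RBM (n m : ℕ) : Set ((Fin n → Bool) → ℝ) :=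
  {p | ∃ (W : Fin n → Fin m → ℝ) (b : Fin n → ℝ) (c : Fin m → ℝ), p = rbmDist W b c}

/-- `RBM(n,m)` is a universal approximator: its closure is the whole probability simplex. -/
def IsUniversal (n m : ℕ) : Prop :=
  closure (RBM n m) = stdSimplex ℝ (Fin n → Bool)

/-! ### Combinatorics of sign patterns on the 3-cube -/

def par (v : Fin 4 → Bool) : Bool := xor (xor (v 0) (v 1)) (xor (v 2) (v 3))

def evens : Finset (Fin 4 → Bool) := univ.filter (fun v => par v = false)

theorem par_update : ∀ (v : Fin 4 → Bool) (i : Fin 4),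
    par (Function.update v i (!(v i))) = !(par v) := by decide

theorem card_evens : evens.card = 8 := by decide

theorem card_evens_filter (i : Fin 4) : (evens.filter (fun v => v i = true)).card = 4 := by
  revert i; decide

/-- quadruples with `a + d = b + c` in every coordinate -/
def para (a b c d : ℕ) : Bool := (a ^^^ d == b ^^^ c) && (a &&& d == b &&& c)

def quads : List (ℕ × ℕ × ℕ × ℕ) :=
  ((List.range 8).flatMap fun a => (List.range 8).flatMap fun b => (List.range 8).flatMap fun c =>
    (List.range 8).map fun d => (a, b, c, d)).filter fun q => para q.1 q.2.1 q.2.2.1 q.2.2.2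

def goodMask (m : ℕ) : Bool :=
  quads.all fun q => !((m.testBit q.1 == m.testBit q.2.2.2) &&
    ((m.testBit q.2.1 == m.testBit q.2.2.1) && (m.testBit q.1 != m.testBit q.2.1)))

def extr (m k : ℕ) : Bool :=
  quads.any fun q => (q.1 == k) && ((m.testBit q.1 == m.testBit q.2.1) &&
    ((m.testBit q.1 == m.testBit q.2.2.1) && (m.testBit q.1 != m.testBit q.2.2.2)))

def pop (m : ℕ) : ℕ := ((List.range 8).filter fun k => m.testBit k).length

def L14 : List ℕ := (List.range 256).filter fun m => (pop m == 4) && goodMask m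

def val (m w k i : ℕ) : ℕ :=
  if m.testBit k != w.testBit i then (if extr m k then 3 else 1) else 0

def oddW : List ℕ := [1, 2, 4, 7, 8, 11, 13, 14]

def injM (m0 m1 m2 m3 : ℕ) : Bool :=
  (List.range 8).all fun k => (List.range 8).all fun l =>
    (k == l) || ((m0.testBit k != m0.testBit l) || ((m1.testBit k != m1.testBit l) ||
      ((m2.testBit k != m2.testBit l) || (m3.testBit k != m3.testBit l))))

def concl (m0 m1 m2 m3 : ℕ) : Bool :=
  oddW.any fun w => (List.range 8).all fun k =>
    decide (3 ≤ val m0 w k 0 + val m1 w k 1 + val m2 w k 2 + val m3 w k 3)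

def bigCheck (L : List ℕ) : Bool :=
  L.all fun m0 => L.all fun m1 => L.all fun m2 =>
    !(L.elem (m0 ^^^ m1 ^^^ m2)) || (!(injM m0 m1 m2 (m0 ^^^ m1 ^^^ m2)) ||
      concl m0 m1 m2 (m0 ^^^ m1 ^^^ m2))

set_option maxRecDepth 100000 in
theorem bigCheck_true : bigCheck L14 = true := by decide +kernel

/-- vertex of the 3-cube with index `k` -/
def cube (k : Fin 8) : Fin 3 → Bool := fun j => (k : ℕ).testBit j

theorem cube_bij : Function.Bijective cube := by decide

theorem surj_consequences (s : (Fin 3 → Bool) → (Fin 4 → Bool))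
    (hs : ∀ v, par v = false → ∃ h, s h = v) :
    Function.Injective s ∧ (∀ h, par (s h) = false) ∧
      ∀ i, (univ.filter (fun h => s h i = true)).card = 4 := by
  have hsub : evens ⊆ univ.image s := by
    intro v hv
    obtain ⟨h, hh⟩ := hs v (by simpa [evens] using hv)
    exact mem_image.mpr ⟨h, mem_univ _, hh⟩
  have hcard : (univ.image s).card ≤ 8 := by
    refine card_image_le.trans ?_
    simp
  have heq : evens = univ.image s := eq_of_subset_of_card_le hsub (by rw [card_evens]; exact hcard)
  have hinj : Function.Injective s := by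
    have : Set.InjOn s ((univ : Finset (Fin 3 → Bool)) : Set (Fin 3 → Bool)) := by
      rw [← card_image_iff, ← heq, card_evens]; simp
    intro a b hab
    exact this (by simp) (by simp) hab
  refine ⟨hinj, ?_, ?_⟩
  · intro h
    have : s h ∈ evens := by rw [heq]; exact mem_image_of_mem _ (mem_univ _)
    simpa [evens] using this
  · intro i
    have h1 : (univ.filter (fun h => s h i = true)).image s = evens.filter (fun v => v i = true) := by
      rw [heq]; ext v; simp only [mem_image, mem_filter, mem_univ, true_and]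
      constructor
      · rintro ⟨h, hh, rfl⟩; exact ⟨⟨h, rfl⟩, hh⟩
      · rintro ⟨⟨h, rfl⟩, hh⟩; exact ⟨h, hh, rfl⟩
    rw [← card_image_of_injective _ hinj, h1, card_evens_filter]

/-- the mask of a Boolean function on the 3-cube -/
def mask (f : (Fin 3 → Bool) → Bool) : ℕ := Nat.ofBits (fun k : Fin 8 => f (cube k))

theorem mask_lt (f : (Fin 3 → Bool) → Bool) : mask f < 256 := Nat.ofBits_lt_two_pow _

theorem testBit_mask (f : (Fin 3 → Bool) → Bool) (k : ℕ) (hk : k < 8) :
    (mask f).testBit k = f (cube ⟨k, hk⟩) := Nat.testBit_ofBits_lt _ _ hk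

theorem pop_eq (m : ℕ) : pop m = (univ.filter (fun k : Fin 8 => m.testBit (k:ℕ) = true)).card := by
  unfold pop
  rw [← List.countP_eq_length_filter, card_filter]
  simp only [show List.range 8 = [0,1,2,3,4,5,6,7] from rfl, List.countP_cons, List.countP_nil,
    Fin.sum_univ_eight]
  simp
  ring

theorem pop_mask (f : (Fin 3 → Bool) → Bool)
    (hf : (univ.filter (fun h => f h = true)).card = 4) : pop (mask f) = 4 := by
  rw [pop_eq, ← hf]
  refine card_bij (fun k _ => cube k) ?_ ?_ ?_
  · intro k hk
    simp only [mem_filter, mem_univ, true_and] at hk ⊢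
    rw [testBit_mask f k k.2] at hk
    exact hk
  · intro a _ b _ hab
    exact cube_bij.1 hab
  · intro h hh
    obtain ⟨k, hk⟩ := cube_bij.2 h
    refine ⟨k, ?_, hk⟩
    simp only [mem_filter, mem_univ, true_and] at hh ⊢
    rw [testBit_mask f k k.2]
    simpa [hk] using hh

theorem bitVal_eq (x : Bool) : bitVal x = (x.toNat : ℝ) := by
  cases x <;> simp [bitVal]

theorem para_bits : ∀ a b c d : Fin 8, para a b c d = true → ∀ j : Fin 3,
    (cube a j).toNat + (cube d j).toNat = (cube b j).toNat + (cube c j).toNat := by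
  decide +kernel

theorem para_bitVal (a b c d : Fin 8) (h : para a b c d = true) (j : Fin 3) :
    bitVal (cube a j) + bitVal (cube d j) = bitVal (cube b j) + bitVal (cube c j) := by
  rw [bitVal_eq, bitVal_eq, bitVal_eq, bitVal_eq]
  exact_mod_cast para_bits a b c d h j

theorem mem_quads {q : ℕ × ℕ × ℕ × ℕ} (h : q ∈ quads) :
    q.1 < 8 ∧ q.2.1 < 8 ∧ q.2.2.1 < 8 ∧ q.2.2.2 < 8 ∧ para q.1 q.2.1 q.2.2.1 q.2.2.2 = true := by
  unfold quads at h
  simp only [List.mem_filter, List.mem_flatMap, List.mem_map, List.mem_range] at h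
  obtain ⟨⟨a, ha, b, hb, c, hc, d, hd, rfl⟩, h2⟩ := h
  exact ⟨ha, hb, hc, hd, h2⟩

theorem decide_pos_true {x : ℝ} (h : decide (0 < x) = true) : 0 < x := by simpa using h
theorem decide_pos_false {x : ℝ} (h : decide (0 < x) = false) : x ≤ 0 := by simpa using h

theorem good_of_affine (Y : (Fin 3 → Bool) → ℝ)
    (haff : ∀ a b c d : Fin 3 → Bool,
      (∀ j, bitVal (a j) + bitVal (d j) = bitVal (b j) + bitVal (c j)) → Y a + Y d = Y b + Y c) :
    goodMask (mask fun h => decide (0 < Y h)) = true := by
  unfold goodMask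
  rw [List.all_eq_true]
  rintro ⟨a, b, c, d⟩ hq
  obtain ⟨ha, hb, hc, hd, hp⟩ := mem_quads hq
  simp only at ha hb hc hd hp
  simp only
  rw [testBit_mask _ a ha, testBit_mask _ b hb, testBit_mask _ c hc, testBit_mask _ d hd]
  have e := haff (cube ⟨a, ha⟩) (cube ⟨b, hb⟩) (cube ⟨c, hc⟩) (cube ⟨d, hd⟩)
    (fun j => para_bitVal ⟨a, ha⟩ ⟨b, hb⟩ ⟨c, hc⟩ ⟨d, hd⟩ hp j)
  by_cases h1 : 0 < Y (cube ⟨a, ha⟩) <;> by_cases h2 : 0 < Y (cube ⟨b, hb⟩) <;>
  by_cases h3 : 0 < Y (cube ⟨c, hc⟩) <;> by_cases h4 : 0 < Y (cube ⟨d, hd⟩) <;>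
  simp [h1, h2, h3, h4] <;> linarith

theorem extr_bound (Y : (Fin 3 → Bool) → ℝ) (K : ℝ)
    (haff : ∀ a b c d : Fin 3 → Bool,
      (∀ j, bitVal (a j) + bitVal (d j) = bitVal (b j) + bitVal (c j)) → Y a + Y d = Y b + Y c)
    (hK : ∀ h, K ≤ |Y h|) (k : ℕ) (hk : k < 8)
    (he : extr (mask fun h => decide (0 < Y h)) k = true) :
    3 * K ≤ |Y (cube ⟨k, hk⟩)| := by
  unfold extr at he
  rw [List.any_eq_true] at he
  obtain ⟨⟨a, b, c, d⟩, hq, h⟩ := he
  obtain ⟨ha, hb, hc, hd, hp⟩ := mem_quads hq
  simp only at ha hb hc hd hp h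
  rw [testBit_mask _ a ha, testBit_mask _ b hb, testBit_mask _ c hc, testBit_mask _ d hd] at h
  have e := haff (cube ⟨a, ha⟩) (cube ⟨b, hb⟩) (cube ⟨c, hc⟩) (cube ⟨d, hd⟩)
    (fun j => para_bitVal ⟨a, ha⟩ ⟨b, hb⟩ ⟨c, hc⟩ ⟨d, hd⟩ hp j)
  simp only [Bool.and_eq_true, beq_iff_eq, bne_iff_ne, ne_eq] at h
  obtain ⟨rfl, h1, h2, h3⟩ := h
  have kb := hK (cube ⟨b, hb⟩)
  have kc := hK (cube ⟨c, hc⟩)
  have kd := hK (cube ⟨d, hd⟩)
  by_cases g : 0 < Y (cube ⟨a, ha⟩)
  · have g2 : 0 < Y (cube ⟨b, hb⟩) := by simpa [g] using h1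
    have g3 : 0 < Y (cube ⟨c, hc⟩) := by simpa [g] using h2
    have g4 : Y (cube ⟨d, hd⟩) ≤ 0 := by simpa [g] using h3
    rw [abs_of_pos g]
    rw [abs_of_pos g2] at kb
    rw [abs_of_pos g3] at kc
    rw [abs_of_nonpos g4] at kd
    linarith
  · have g1 : Y (cube ⟨a, ha⟩) ≤ 0 := not_lt.mp g
    have g2 : Y (cube ⟨b, hb⟩) ≤ 0 := by simpa [g] using h1
    have g3 : Y (cube ⟨c, hc⟩) ≤ 0 := by simpa [g] using h2
    have g4 : 0 < Y (cube ⟨d, hd⟩) := by simpa [g] using h3
    rw [abs_of_nonpos g1]
    rw [abs_of_nonpos g2] at kb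
    rw [abs_of_nonpos g3] at kc
    rw [abs_of_pos g4] at kd
    linarith

theorem term_bound (Y : (Fin 3 → Bool) → ℝ) (K : ℝ)
    (haff : ∀ a b c d : Fin 3 → Bool,
      (∀ j, bitVal (a j) + bitVal (d j) = bitVal (b j) + bitVal (c j)) → Y a + Y d = Y b + Y c)
    (hK : ∀ h, K ≤ |Y h|) (w k i : ℕ) (hk : k < 8) :
    (val (mask fun h => decide (0 < Y h)) w k i : ℝ) * K ≤
      (bitVal (decide (0 < Y (cube ⟨k, hk⟩))) - bitVal (w.testBit i)) * Y (cube ⟨k, hk⟩) := by
  unfold val
  have ht := testBit_mask (fun h => decide (0 < Y h)) k hk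
  by_cases hne : (mask fun h => decide (0 < Y h)).testBit k = w.testBit i
  · have : ((mask fun h => decide (0 < Y h)).testBit k != w.testBit i) = false := by simp [hne]
    rw [this]
    rw [ht] at hne
    rw [← hne]
    simp
  · have h1 : ((mask fun h => decide (0 < Y h)).testBit k != w.testBit i) = true := by simpa using hne
    rw [h1]
    simp only [if_true]
    have habs : (bitVal (decide (0 < Y (cube ⟨k, hk⟩))) - bitVal (w.testBit i)) * Y (cube ⟨k, hk⟩)
        = |Y (cube ⟨k, hk⟩)| := by
      rw [ht] at hne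
      by_cases g : 0 < Y (cube ⟨k, hk⟩)
      · have : w.testBit i = false := by simpa [g] using hne
        rw [this, abs_of_pos g]; simp [bitVal, g]
      · have : w.testBit i = true := by simpa [g] using hne
        rw [this, abs_of_nonpos (not_lt.mp g)]; simp [bitVal, g]
    rw [habs]
    by_cases he : extr (mask fun h => decide (0 < Y h)) k = true
    · simp only [he, if_true]
      have := extr_bound Y K haff hK k hk he
      push_cast
      linarith
    · simp only [he]
      have := hK (cube ⟨k, hk⟩)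
      simpa using this

theorem comb (X : Fin 4 → (Fin 3 → Bool) → ℝ) (K : ℝ) (hKpos : 0 < K)
    (haff : ∀ i, ∀ a b c d : Fin 3 → Bool,
      (∀ j, bitVal (a j) + bitVal (d j) = bitVal (b j) + bitVal (c j)) →
        X i a + X i d = X i b + X i c)
    (hs : ∀ v, par v = false → ∃ h, ∀ i, decide (0 < X i h) = v i)
    (hK : ∀ i h, K ≤ |X i h|) :
    ∃ w : Fin 4 → Bool, par w = true ∧
      ∀ h, 3 * K ≤ ∑ i, (bitVal (decide (0 < X i h)) - bitVal (w i)) * X i h := by
  obtain ⟨hinj, hpar, hcard⟩ := surj_consequences (fun h i => decide (0 < X i h))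
    (fun v hv => by obtain ⟨h, hh⟩ := hs v hv; exact ⟨h, funext hh⟩)
  set m0 := mask (fun h => decide (0 < X 0 h)) with hm0
  set m1 := mask (fun h => decide (0 < X 1 h)) with hm1
  set m2 := mask (fun h => decide (0 < X 2 h)) with hm2
  set m3 := mask (fun h => decide (0 < X 3 h)) with hm3
  have hmem : ∀ i, mask (fun h => decide (0 < X i h)) ∈ L14 := by
    intro i
    unfold L14
    rw [List.mem_filter]
    refine ⟨List.mem_range.mpr (mask_lt _), ?_⟩
    rw [good_of_affine (X i) (haff i), pop_mask _ (hcard i)]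
    rfl
  have hxor : m0 ^^^ m1 ^^^ m2 = m3 := by
    apply Nat.eq_of_testBit_eq
    intro k
    by_cases hk : k < 8
    · rw [Nat.testBit_xor, Nat.testBit_xor, hm0, hm1, hm2, hm3, testBit_mask _ k hk,
        testBit_mask _ k hk, testBit_mask _ k hk, testBit_mask _ k hk]
      have := hpar (cube ⟨k, hk⟩)
      simp only [par] at this
      revert this
      cases decide (0 < X 0 (cube ⟨k, hk⟩)) <;> cases decide (0 < X 1 (cube ⟨k, hk⟩)) <;>
      cases decide (0 < X 2 (cube ⟨k, hk⟩)) <;> cases decide (0 < X 3 (cube ⟨k, hk⟩)) <;> simp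
    · have hk' : 2 ^ 8 ≤ 2 ^ k := Nat.pow_le_pow_right (by norm_num) (not_lt.mp hk)
      have l : ∀ m, m < 256 → m.testBit k = false := fun m hm =>
        Nat.testBit_lt_two_pow (lt_of_lt_of_le hm hk')
      rw [Nat.testBit_xor, Nat.testBit_xor, l m0 (mask_lt _), l m1 (mask_lt _), l m2 (mask_lt _),
        l m3 (mask_lt _)]
      rfl
  have hinjM : injM m0 m1 m2 m3 = true := by
    unfold injM
    rw [List.all_eq_true]
    intro k hk
    rw [List.all_eq_true]
    intro l hl
    rw [List.mem_range] at hk hl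
    by_contra hcon
    simp only [Bool.or_eq_true, not_or, beq_iff_eq, bne_iff_ne, ne_eq, not_not] at hcon
    obtain ⟨h1, h2, h3, h4, h5⟩ := hcon
    rw [hm0, testBit_mask _ k hk, testBit_mask _ l hl] at h2
    rw [hm1, testBit_mask _ k hk, testBit_mask _ l hl] at h3
    rw [hm2, testBit_mask _ k hk, testBit_mask _ l hl] at h4
    rw [hm3, testBit_mask _ k hk, testBit_mask _ l hl] at h5
    have : cube ⟨k, hk⟩ = cube ⟨l, hl⟩ := by
      apply hinj
      funext i
      fin_cases i
      · exact h2
      · exact h3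
      · exact h4
      · exact h5
    have := cube_bij.1 this
    simp only [Fin.mk.injEq] at this
    exact h1 this
  have hc : concl m0 m1 m2 m3 = true := by
    have hb := bigCheck_true
    unfold bigCheck at hb
    rw [List.all_eq_true] at hb
    have hb := hb m0 (hmem 0)
    rw [List.all_eq_true] at hb
    have hb := hb m1 (hmem 1)
    rw [List.all_eq_true] at hb
    have hb := hb m2 (hmem 2)
    rw [hxor, hinjM] at hb
    have : L14.elem m3 = true := List.elem_eq_true_of_mem (hmem 3)
    rw [this] at hb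
    simpa using hb
  unfold concl at hc
  rw [List.any_eq_true] at hc
  obtain ⟨w, hw, hall⟩ := hc
  refine ⟨fun i => w.testBit i, ?_, ?_⟩
  · revert hw
    unfold oddW par
    simp only [List.mem_cons, List.not_mem_nil, or_false]
    rintro (rfl | rfl | rfl | rfl | rfl | rfl | rfl | rfl) <;> decide
  · intro h
    obtain ⟨⟨k, hk⟩, rfl⟩ := cube_bij.2 h
    rw [List.all_eq_true] at hall
    have h3 := hall k (List.mem_range.mpr hk)
    rw [decide_eq_true_eq] at h3
    have t0 := term_bound (X 0) K (haff 0) (hK 0) w k 0 hk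
    have t1 := term_bound (X 1) K (haff 1) (hK 1) w k 1 hk
    have t2 := term_bound (X 2) K (haff 2) (hK 2) w k 2 hk
    have t3 := term_bound (X 3) K (haff 3) (hK 3) w k 3 hk
    rw [Fin.sum_univ_four]
    have h3' : (3:ℝ) ≤ (val m0 w k 0 : ℝ) + val m1 w k 1 + val m2 w k 2 + val m3 w k 3 := by
      exact_mod_cast h3
    have := mul_le_mul_of_nonneg_right h3' hKpos.le
    simp only [Fin.val_zero, Fin.val_one, Fin.val_two]
    have e3 : ((3 : Fin 4) : ℕ) = 3 := rfl
    rw [e3]
    linarith

/-! ### The analytic part -/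

/-- The distribution giving `999/8000` to each even vector and `1/8000` to each odd vector. -/
noncomputable def target : (Fin 4 → Bool) → ℝ :=
  fun v => if par v = true then 1 / 8000 else 999 / 8000

theorem target_mem : target ∈ stdSimplex ℝ (Fin 4 → Bool) := by
  constructor
  · intro v
    unfold target
    split_ifs <;> norm_num
  · unfold target
    rw [sum_ite, sum_const, sum_const]
    have h1 : (univ.filter (fun v : Fin 4 → Bool => par v = true)).card = 8 := by decide
    have h2 : (univ.filter (fun v : Fin 4 → Bool => ¬ par v = true)).card = 8 := by decide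
    rw [h1, h2]
    norm_num

theorem mass_pos {n m : ℕ} (W : Fin n → Fin m → ℝ) (b : Fin n → ℝ) (c : Fin m → ℝ)
    (v : Fin n → Bool) : 0 < mass W b c v :=
  sum_pos (fun h _ => Real.exp_pos _) univ_nonempty

theorem Z_pos {n m : ℕ} (W : Fin n → Fin m → ℝ) (b : Fin n → ℝ) (c : Fin m → ℝ) :
    0 < ∑ u : Fin n → Bool, mass W b c u :=
  sum_pos (fun u _ => mass_pos W b c u) univ_nonempty

theorem far (W : Fin 4 → Fin 3 → ℝ) (b : Fin 4 → ℝ) (c : Fin 3 → ℝ)
    (hclose : ∀ v, |target v - rbmDist W b c v| < 1 / 16000) : False := by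
  set Z := ∑ u : Fin 4 → Bool, mass W b c u with hZ
  have hZpos : 0 < Z := Z_pos W b c
  set q := rbmDist W b c with hq
  set C : (Fin 3 → Bool) → ℝ := fun h => ∑ j, c j * bitVal (h j) - Real.log Z with hC
  set X : Fin 4 → (Fin 3 → Bool) → ℝ := fun i h => b i + ∑ j, W i j * bitVal (h j) with hX
  set L : (Fin 4 → Bool) → (Fin 3 → Bool) → ℝ := fun v h => C h + ∑ i, bitVal (v i) * X i h with hL
  have hLexpo : ∀ v h, L v h = expo W b c v h - Real.log Z := by
    intro v h
    simp only [hL, hC, hX, expo, mul_add, sum_add_distrib, mul_sum]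
    have : ∀ i, b i * bitVal (v i) = bitVal (v i) * b i := fun i => mul_comm _ _
    simp only [this]
    have h2 : ∀ i j, bitVal (v i) * W i j * bitVal (h j) = bitVal (v i) * (W i j * bitVal (h j)) :=
      fun i j => mul_assoc _ _ _
    simp only [h2]
    ring
  have hqsum : ∀ v, q v = ∑ h, Real.exp (L v h) := by
    intro v
    rw [hq]
    unfold rbmDist mass
    rw [sum_div]
    refine sum_congr rfl fun h _ => ?_
    rw [hLexpo, Real.exp_sub, Real.exp_log hZpos]
    rfl
  have hqodd : ∀ v, par v = true → q v ≤ 3 / 16000 ∧ 1 / 16000 ≤ q v := by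
    intro v hv
    have := abs_lt.mp (hclose v)
    have ht : target v = 1 / 8000 := by simp [target, hv]
    rw [ht] at this
    constructor <;> linarith [this.1, this.2]
  have hqeven : ∀ v, par v = false → q v ≤ 1 / 8 ∧ 998 / 8000 ≤ q v := by
    intro v hv
    have := abs_lt.mp (hclose v)
    have ht : target v = 999 / 8000 := by simp [target, hv]
    rw [ht] at this
    constructor <;> linarith [this.1, this.2]
  have hle : ∀ v h, Real.exp (L v h) ≤ q v := by
    intro v h
    rw [hqsum]
    exact single_le_sum (f := fun h => Real.exp (L v h)) (fun h _ => (Real.exp_pos _).le)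
      (mem_univ h)
  set K := Real.log 62 with hKdef
  have hKpos : 0 < K := Real.log_pos (by norm_num)
  have hK3 : Real.exp (3 * K) = 62 ^ 3 := by
    rw [hKdef, show (3 : ℝ) * Real.log 62 = Real.log 62 + Real.log 62 + Real.log 62 by ring,
      Real.exp_add, Real.exp_add, Real.exp_log (by norm_num)]
    norm_num
  have hcard : (univ : Finset (Fin 3 → Bool)).card = 8 := by simp
  -- witnesses
  have hwit : ∀ v, par v = false → ∃ h, (998 / 64000 : ℝ) ≤ Real.exp (L v h) := by
    intro v hv
    by_contra hcon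
    push Not at hcon
    have h1 : q v < ∑ _h : Fin 3 → Bool, (998 / 64000 : ℝ) := by
      rw [hqsum]
      exact sum_lt_sum_of_nonempty univ_nonempty (fun h _ => hcon h)
    rw [sum_const, hcard] at h1
    have := (hqeven v hv).2
    norm_num at h1
    linarith
  have hsign : ∀ v, par v = false → ∃ h, ∀ i, (v i = true → K ≤ X i h) ∧
      (v i = false → X i h ≤ -K) := by
    intro v hv
    obtain ⟨h, hh⟩ := hwit v hv
    refine ⟨h, fun i => ?_⟩
    set v' := Function.update v i (!(v i)) with hv'
    have hodd : par v' = true := by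
      rw [hv', par_update, hv]; rfl
    have h1 : Real.exp (L v' h) ≤ 3 / 16000 := (hle v' h).trans (hqodd v' hodd).1
    have h2 : 62 * Real.exp (L v' h) ≤ Real.exp (L v h) := by linarith
    have h3 : K + L v' h ≤ L v h := by
      have : Real.exp (K + L v' h) ≤ Real.exp (L v h) := by
        rw [Real.exp_add, hKdef, Real.exp_log (by norm_num)]
        exact h2
      exact Real.exp_le_exp.mp this
    have h4 : L v h - L v' h = (bitVal (v i) - bitVal (!(v i))) * X i h := by
      simp only [hL]
      rw [add_sub_add_left_eq_sub, ← sum_sub_distrib]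
      rw [Finset.sum_eq_single i]
      · rw [hv', Function.update_self]; ring
      · intro j _ hj
        rw [hv', Function.update_of_ne hj]; ring
      · intro hi; exact absurd (mem_univ i) hi
    constructor
    · intro hvi
      rw [hvi] at h4
      simp [bitVal] at h4
      linarith
    · intro hvi
      rw [hvi] at h4
      simp [bitVal] at h4
      linarith
  choose! H hH using hsign
  have hs : ∀ v, par v = false → ∀ i, decide (0 < X i (H v)) = v i := by
    intro v hv i
    obtain ⟨h1, h2⟩ := hH v hv i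
    cases hvi : v i
    · have := h2 hvi
      simp only [decide_eq_false_iff_not, not_lt]; linarith
    · have := h1 hvi
      simp only [decide_eq_true_eq]; linarith
  have hHinj : Set.InjOn H (evens : Set (Fin 4 → Bool)) := by
    intro v hv v' hv' hvv
    have e1 := hs v (by simpa [evens] using hv)
    have e2 := hs v' (by simpa [evens] using hv')
    funext i
    rw [← e1 i, ← e2 i, hvv]
  have himg : evens.image H = univ := by
    apply eq_univ_of_card
    rw [card_image_of_injOn hHinj, card_evens]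
    simp
  have hKabs : ∀ i h, K ≤ |X i h| := by
    intro i h
    have : h ∈ evens.image H := by rw [himg]; exact mem_univ _
    obtain ⟨v, hv, rfl⟩ := mem_image.mp this
    obtain ⟨h1, h2⟩ := hH v (by simpa [evens] using hv) i
    cases hvi : v i
    · have := h2 hvi
      rw [abs_of_nonpos (by linarith)]; linarith
    · have := h1 hvi
      rw [abs_of_nonneg (by linarith)]; exact this
  have haff : ∀ i, ∀ a b' c' d : Fin 3 → Bool,
      (∀ j, bitVal (a j) + bitVal (d j) = bitVal (b' j) + bitVal (c' j)) →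
        X i a + X i d = X i b' + X i c' := by
    intro i a b' c' d hj
    have : ∑ j, W i j * bitVal (a j) + ∑ j, W i j * bitVal (d j) =
        ∑ j, W i j * bitVal (b' j) + ∑ j, W i j * bitVal (c' j) := by
      rw [← sum_add_distrib, ← sum_add_distrib]
      refine sum_congr rfl fun j _ => ?_
      rw [← mul_add, ← mul_add, hj j]
    simp only [hX]
    linarith
  obtain ⟨w, hw, hbound⟩ := comb X K hKpos haff (fun v hv => ⟨H v, hs v hv⟩) hKabs
  have hexp : ∀ h, Real.exp (L w h) ≤ 1 / 8 / 62 ^ 3 := by
    intro h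
    have : h ∈ evens.image H := by rw [himg]; exact mem_univ _
    obtain ⟨v, hv, rfl⟩ := mem_image.mp this
    have hv' : par v = false := by simpa [evens] using hv
    have e := hs v hv'
    have hb := hbound (H v)
    simp only [e] at hb
    have h1 : L v (H v) - L w (H v) = ∑ i, (bitVal (v i) - bitVal (w i)) * X i (H v) := by
      simp only [hL]
      rw [add_sub_add_left_eq_sub, ← sum_sub_distrib]
      refine sum_congr rfl fun i _ => by ring
    have h2 : L w (H v) + 3 * K ≤ L v (H v) := by linarith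
    have h3 : Real.exp (L w (H v)) * 62 ^ 3 ≤ 1 / 8 := by
      calc Real.exp (L w (H v)) * 62 ^ 3 = Real.exp (L w (H v) + 3 * K) := by
            rw [Real.exp_add (L w (H v)), hK3]
        _ ≤ Real.exp (L v (H v)) := Real.exp_le_exp.mpr h2
        _ ≤ q v := hle v (H v)
        _ ≤ 1 / 8 := (hqeven v hv').1
    rw [le_div_iff₀ (by norm_num)]
    exact h3
  have hfin : q w ≤ ∑ _h : Fin 3 → Bool, (1 / 8 / 62 ^ 3 : ℝ) := by
    rw [hqsum]
    exact sum_le_sum fun h _ => hexp h
  rw [sum_const, hcard] at hfin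
  have := (hqodd w hw).2
  norm_num at hfin
  linarith

theorem target_not_mem : target ∉ closure (RBM 4 3) := by
  intro hmem
  rw [Metric.mem_closure_iff] at hmem
  obtain ⟨p, ⟨W, b, c, rfl⟩, hd⟩ := hmem (1 / 16000) (by norm_num)
  refine far W b c fun v => ?_
  have := (dist_pi_lt_iff (by norm_num)).mp hd v
  rwa [Real.dist_eq] at this

/-- Adding a hidden unit with zero weights and bias does not change the distribution. -/
theorem RBM_succ {n m : ℕ} : RBM n m ⊆ RBM n (m + 1) := by
  rintro p ⟨W, b, c, rfl⟩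
  refine ⟨fun i => Fin.snoc (W i) 0, b, Fin.snoc c 0, ?_⟩
  have hm : ∀ v, mass (m := m + 1) (fun i => Fin.snoc (W i) 0) b (Fin.snoc c 0) v
      = 2 * mass W b c v := by
    intro v
    unfold mass
    have he : ∀ h : Fin (m + 1) → Bool,
        expo (m := m + 1) (fun i => Fin.snoc (W i) 0) b (Fin.snoc c 0) v h
          = expo W b c v (Fin.init h) := by
      intro h
      unfold expo
      simp only [Fin.sum_univ_castSucc, Fin.snoc_castSucc, Fin.snoc_last, zero_mul, mul_zero,
        add_zero, Fin.init]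
    simp only [he]
    rw [← (Fin.snocEquiv (fun _ : Fin (m + 1) => Bool)).sum_comp]
    rw [Fintype.sum_prod_type]
    simp [Fin.snocEquiv, Fin.init_snoc]
  funext v
  unfold rbmDist
  simp only [hm]
  rw [← mul_sum, mul_div_mul_left _ _ (by norm_num : (2:ℝ) ≠ 0)]

theorem RBM_mono {n m m' : ℕ} (h : m ≤ m') : RBM n m ⊆ RBM n m' := by
  induction h with
  | refl => exact subset_rfl
  | step _ ih => exact ih.trans RBM_succ

/-- `RBM(4,3)` is not a universal approximator: some distribution on `{0,1}^4` is not a limit of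
distributions in `RBM(4,3)`; hence every universal `RBM(4,m)` has `m ≥ 4`. -/
theorem result :
    (∃ p ∈ stdSimplex ℝ (Fin 4 → Bool), p ∉ closure (RBM 4 3)) ∧
      ¬ IsUniversal 4 3 ∧ ∀ m, IsUniversal 4 m → 4 ≤ m := by
  refine ⟨⟨target, target_mem, target_not_mem⟩, ?_, ?_⟩
  · intro h
    exact target_not_mem (by rw [h]; exact target_mem)
  · intro m hm
    by_contra hlt
    have h3 : m ≤ 3 := by omega
    apply target_not_mem
    have : target ∈ closure (RBM 4 m) := by rw [hm]; exact target_mem
    exact closure_mono (RBM_mono h3) this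

end Pool.Agent.Results.MP_dabbe0_pr.NotUniversal
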